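import Mathlib

/-! The choice of the radii and of the reservoir. -/

namespace Pool.Agent.MP_993212_an.H2

open Filter

theorem gap (S : Finset ℝ) {a b : ℝ} (h : a < b) :
    ∃ c, a < c ∧ c < b ∧ ∀ x, a < x → x < c → x ∉ S := by
  induction S using Finset.induction_on with
  | empty => exact ⟨(a + b) / 2, by linarith, by linarith, by simp⟩
  | insert s S _ ih =>
    obtain ⟨c, c1, c2, c3⟩ := ih
    by_cases hs : a < s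
    · refine ⟨min c s, lt_min c1 hs, (min_le_left _ _).trans_lt c2, fun x x1 x2 hx => ?_⟩
      rw [lt_min_iff] at x2
      rcases Finset.mem_insert.1 hx with e | e
      · exact x2.2.ne e
      · exact c3 x x1 x2.1 e
    · refine ⟨c, c1, c2, fun x x1 x2 hx => ?_⟩
      rcases Finset.mem_insert.1 hx with e | e
      · exact hs (e ▸ x1)
      · exact c3 x x1 x2 e

theorem consts {lam ρA ρB ηA ηB : ℝ} (S : Finset ℝ) (a : ℕ → ℝ) (K : ℝ) (hl : 1 < lam)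
    (hA : lam⁻¹ < ρA) (hB : lam⁻¹ < ρB) (eA : 0 < ηA) (eB : 0 < ηB)
    (ha : ∀ ρ K : ℝ, lam⁻¹ < ρ → ∀ᶠ m : ℕ in atTop, K * m ≤ a m * ρ ^ m) :
    ∃ (σ ρ₁ ρ η : ℝ) (h c₀ c : ℕ), 0 < ρ ∧ lam⁻¹ < ρ ∧ ρ < ρ₁ ∧ ρ₁ < σ ∧ σ ≤ ρA ∧ σ ≤ ρB ∧
      σ ≤ 1 - 2 * η ∧ 0 < η ∧ 2 * η ≤ ηA ∧ 2 * η ≤ ηB ∧ 1 ≤ h ∧ ρ ∉ S ∧ (c : ℝ) * ρ ^ h = 1 ∧
      (c₀ : ℝ) * ρ₁ ^ h ≤ 1 - 2 * η ∧ 1 ≤ (c₀ : ℝ) * σ ^ h ∧
      ∀ k, h ≤ k → K * k ≤ (a k - k * (c₀ + c)) * σ ^ k := by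
  have l0 : 0 < lam⁻¹ := by positivity
  have l1 : lam⁻¹ < 1 := inv_lt_one_of_one_lt₀ hl
  obtain ⟨σ, s1, s2⟩ := exists_between (lt_min (lt_min hA hB) l1)
  simp only [lt_min_iff] at s2
  obtain ⟨ρ₁, r1, r2, r3⟩ := gap S s1
  have p1 := l0.trans r1
  have p2 := p1.trans r2
  obtain ⟨η, e0, e1⟩ := exists_between (show 0 < min (min (ηA / 2) (ηB / 2)) (min ((1 - σ) / 2) (1 / 4))
    from lt_min (lt_min (by linarith) (by linarith)) (lt_min (by linarith) (by norm_num)))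
  simp only [lt_min_iff] at e1
  have t1 := (tendsto_pow_atTop_nhds_zero_of_lt_one (div_pos p1 p2).le
    ((div_lt_one p2).2 r2)).eventually_le_const (show (0 : ℝ) < 1 / 4 by norm_num)
  have t2 := (tendsto_pow_atTop_nhds_zero_of_lt_one (div_pos l0 p1).le
    ((div_lt_one p1).2 r1)).eventually_le_const (show (0 : ℝ) < 1 / 4 by norm_num)
  obtain ⟨h₀, h1⟩ := eventually_atTop.1 (ha ρ₁ (|K| + 4) r1)
  obtain ⟨h, ⟨⟨u1, u2⟩, u3⟩, u4⟩ :=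
    (((t1.and t2).and (eventually_ge_atTop h₀)).and (eventually_ge_atTop 1)).exists
  have hh : h ≠ 0 := by omega
  rw [div_pow, div_le_iff₀ (pow_pos p2 h)] at u1
  rw [div_pow, div_le_iff₀ (pow_pos p1 h)] at u2
  have q1 := pow_pos p1 h
  have q2 := pow_pos p2 h
  have q3 : σ ^ h ≤ 1 := pow_le_one₀ p2.le s2.2.le
  have q4 : ρ₁ ^ h ≤ 1 := pow_le_one₀ p1.le (r2.trans s2.2).le
  obtain ⟨c₀, a1, a2⟩ : ∃ c₀ : ℕ, 1 ≤ (c₀ : ℝ) * σ ^ h ∧ (c₀ : ℝ) * σ ^ h ≤ 2 := by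
    refine ⟨⌈(σ ^ h)⁻¹⌉₊, ?_, ?_⟩
    · rw [← div_le_iff₀ q2, one_div]; exact Nat.le_ceil _
    · have := mul_le_mul_of_nonneg_right (Nat.ceil_lt_add_one (inv_pos.2 q2).le).le q2.le
      rw [add_mul, inv_mul_cancel₀ q2.ne'] at this
      linarith
  obtain ⟨c, b1, b2⟩ : ∃ c : ℕ, 1 < (c : ℝ) * ρ₁ ^ h ∧ (c : ℝ) * ρ₁ ^ h ≤ 2 := by
    refine ⟨⌊(ρ₁ ^ h)⁻¹⌋₊ + 1, ?_, ?_⟩
    · rw [← div_lt_iff₀ q1, one_div]; exact_mod_cast Nat.lt_floor_add_one _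
    · have := mul_le_mul_of_nonneg_right (Nat.floor_le (inv_pos.2 q1).le) q1.le
      rw [inv_mul_cancel₀ q1.ne'] at this
      push_cast
      linarith
  have c0 : (0 : ℝ) < c := by
    by_contra hc
    nlinarith [mul_nonneg (neg_nonneg.2 (not_lt.1 hc)) q1.le]
  obtain ⟨ρ, g0, g1⟩ : ∃ ρ : ℝ, 0 < ρ ∧ ρ ^ h = (c : ℝ)⁻¹ :=
    ⟨(c : ℝ)⁻¹ ^ (h : ℝ)⁻¹, by positivity, Real.rpow_inv_natCast_pow (by positivity) hh⟩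
  have g2 : (c : ℝ) * ρ ^ h = 1 := by rw [g1, mul_inv_cancel₀ c0.ne']
  have g3 : ρ < ρ₁ := lt_of_pow_lt_pow_left₀ h p1.le (lt_of_mul_lt_mul_left (g2 ▸ b1) c0.le)
  have g4 : lam⁻¹ < ρ := lt_of_pow_lt_pow_left₀ h g0.le
    (lt_of_mul_lt_mul_left (a := (c : ℝ)) (by nlinarith) c0.le)
  have n0 : (0 : ℝ) ≤ c₀ := Nat.cast_nonneg _
  refine ⟨σ, ρ₁, ρ, η, h, c₀, c, g0, g4, g3, r2, s2.1.1.le, s2.1.2.le, by linarith, e0, by linarith,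
    by linarith, u4, r3 ρ g4 g3, g2, by nlinarith, a1, fun k hk => ?_⟩
  have v1 := h1 k (u3.trans hk)
  have v2 : ρ₁ ^ k ≤ ρ₁ ^ h := pow_le_pow_of_le_one p1.le (r2.trans s2.2).le hk
  have v3 : ρ₁ ^ k ≤ σ ^ k := pow_le_pow_left₀ p1.le r2.le k
  have v4 : ρ₁ ^ h ≤ σ ^ h := pow_le_pow_left₀ p1.le r2.le h
  have v5 := pow_pos p1 k
  have k0 : (0 : ℝ) ≤ k := Nat.cast_nonneg k
  have v6 : ((c₀ : ℝ) + c) * ρ₁ ^ k ≤ 4 := by nlinarith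
  have v7 : |K| * k ≤ (a k - k * (c₀ + c)) * ρ₁ ^ k := by nlinarith
  have v8 : 0 ≤ a k - k * (c₀ + c) :=
    nonneg_of_mul_nonneg_left ((mul_nonneg (abs_nonneg K) k0).trans v7) v5
  nlinarith [le_abs_self K]

end Pool.Agent.MP_993212_an.H2
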