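import Pool.Agent.MP_993212_an.H18.WSpec

/-! Delays of honest systems: the rows END and DLY. -/

set_option linter.unusedSectionVars false

namespace Pool.Agent.MP_993212_an.H2

open Matrix Polynomial Finset H16 H92 H15 H18

theorem n1_add {p q : ℤ[X]} (hp : N1 p) (hq : N1 q) : N1 (p + q) := fun k => by
  rw [coeff_add]; exact add_nonneg (hp k) (hq k)

theorem n1_mul {p q : ℤ[X]} (hp : N1 p) (hq : N1 q) : N1 (p * q) := fun k => by
  rw [coeff_mul]; exact sum_nonneg fun _ _ => mul_nonneg (hp _) (hq _)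

theorem n1_sum {ι : Type} {T : Finset ι} {a : ι → ℤ[X]} (h : ∀ i ∈ T, N1 (a i)) :
    N1 (∑ i ∈ T, a i) := fun k => by
  rw [finsetSum_coeff]; exact sum_nonneg fun i hi => h i hi k

theorem n1_X_pow (a : ℕ) : N1 (X ^ a) := fun k => by
  rw [coeff_X_pow]; split_ifs <;> simp

theorem n1_pow {p : ℤ[X]} (hp : N1 p) (n : ℕ) : N1 (p ^ n) := by
  induction n with
  | zero => simpa using n1_X_pow 0
  | succ n ih => rw [pow_succ]; exact n1_mul ih hp

theorem n1_ne {p q : ℤ[X]} (hp : N1 p) (h : N1 (q - p)) (h0 : p ≠ 0) : q ≠ 0 := by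
  rintro rfl
  refine h0 (Polynomial.ext fun k => le_antisymm ?_ (hp k))
  simpa using h k

theorem nz_X_mul {ρ : ℝ} (h0 : 0 ≤ ρ) (k : ℕ) (p : ℤ[X]) : nz ρ (X ^ k * p) = ρ ^ k * nz ρ p := by
  rw [nz, map_mul, map_pow, zr_X, nm_X_pow_mul, abs_of_nonneg h0, nz]

theorem nz_zero (ρ : ℝ) : nz ρ 0 = 0 := by simp [nz]

theorem nz_sum_le {ι : Type} (ρ : ℝ) (T : Finset ι) (a : ι → ℤ[X]) :
    nz ρ (∑ i ∈ T, a i) ≤ ∑ i ∈ T, nz ρ (a i) := by
  rw [nz, map_sum]; exact nm_sum _ _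

section Shift

variable {p q : ℤ[X]} {a b : ℕ}

theorem sh_zero (h : q * X ^ b = X ^ a * p) : q = 0 ↔ p = 0 := by
  constructor
  · rintro rfl
    simpa using h.symm
  · rintro rfl
    simpa using h

theorem sh_n1 (h : q * X ^ b = X ^ a * p) (hp : N1 p) : N1 q := fun k => by
  rw [← coeff_mul_X_pow q b k, h]
  exact n1_mul (n1_X_pow a) hp _

theorem sh_nz {ρ : ℝ} (h0 : 0 ≤ ρ) (h : q * X ^ b = X ^ a * p) :
    ρ ^ b * nz ρ q = ρ ^ a * nz ρ p := by
  rw [← nz_X_mul h0, ← nz_X_mul h0, mul_comm, h]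

theorem sh_dvd (h : q * X ^ b = X ^ a * p) {k : ℕ} (hk : X ^ (k + b) ∣ X ^ a * p) : X ^ k ∣ q := by
  rw [← h, pow_add] at hk
  exact (mul_dvd_mul_iff_right (pow_ne_zero b X_ne_zero)).1 hk

theorem sh_eq (h : q * X ^ a = X ^ a * p) : q = p := by
  rw [mul_comm _ p] at h
  exact mul_right_cancel₀ (pow_ne_zero a X_ne_zero) h

end Shift

variable {I G : Type} [Fintype I] [DecidableEq I] [AddCommGroup G] [Module ℤ[X] G]

theorem cf_one_sub {N : Matrix I I ℤ[X]} (h : H92.cf 0 N = 0) : H92.cf 0 (1 - N) = 1 := by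
  ext i j
  have := congrFun (congrFun h i) j
  simp only [H92.cf, map_apply, Matrix.zero_apply] at this
  simp only [H92.cf, map_apply, Matrix.sub_apply, coeff_sub, this, one_apply]
  split_ifs <;> simp

theorem vp_zero {N : Matrix I I ℤ[X]} (h : Hs N) : VP (1 - N) 0 :=
  ⟨fun _ _ _ => by simp, by ext; simp [H92.cf], ⟨0, N, fun _ _ _ => by simp, h.1, by simp⟩,
    by rw [cf_one_sub h.2, sub_self]; exact IsNilpotent.zero⟩

/-- a delay of an honest system -/
theorem delay (hM : Moves) {N N' : Matrix I I ℤ[X]} {ξ : I → G} {δ : I → ℕ} {z : I} (hs : Hs N)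
    (r : act (1 - N) ξ = 0) (e : ∀ i j, N' i j * X ^ δ j = X ^ δ i * N i j)
    (h0 : ∀ i j, i ≠ j → X ^ 1 ∣ N' i j) (hi : Inv z N) :
    Eq0 N ξ N' (fun i => (X ^ δ i : ℤ[X]) • ξ i) ∧ Hs N' ∧ Inv z N' ∧ (∀ i, N' i i = N i i) ∧
      ∀ d, Src N d → Src N' d := by
  have dg : ∀ i, N' i i = N i i := fun i => sh_eq (e i i)
  have z0 : ∀ i j, N' i j = 0 ↔ N i j = 0 := fun i j => sh_zero (e i j)
  have c0 : H92.cf 0 N' = 0 := by
    ext i j
    by_cases h : i = j
    · subst h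
      simpa only [H92.cf, map_apply, dg] using congrFun (congrFun hs.2 i) i
    · exact X_pow_dvd_iff.1 (h0 i j h) 0 one_pos
  refine ⟨hM.dly G I _ _ ξ δ (by simpa using hs.1) (cf_one_sub hs.2) (cf_one_sub c0) r
    fun i j => ?_, ⟨fun i j => sh_n1 (e i j) (hs.1 i j), c0⟩, ⟨fun j hj => ?_, fun j hj => ?_, ?_⟩,
    dg, fun d h u => (z0 _ _).2 (h u)⟩
  · rw [Matrix.sub_apply, Matrix.sub_apply, sub_mul, mul_sub, e, one_apply]
    split_ifs with h
    · rw [h, mul_comm]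
    · simp
  · simpa only [Snk, ne_eq, z0] using hi.out j hj
  · simpa only [Src, ne_eq, z0] using hi.inn j hj
  · simpa only [ne_eq, z0] using hi.ex

theorem dly_of (hM : Moves) : DlyStmt := by
  intro I G _ _ _ _ N ξ z ρ η ε L ν dg π δ P' h r h0 h1 e0 hL hz hd hδ hP
  have hs : Hs (N.submatrix π π) := ⟨fun i j => h.hs.1 _ _, by
    ext i j; exact congrFun (congrFun h.hs.2 _) _⟩
  have e1 : (1 - N).submatrix π π = 1 - N.submatrix π π := by
    rw [submatrix_sub]; simp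
  have q1 := hM.sub G I I (1 - N) 0 ξ π π.injective (vp_zero h.hs) r
    fun a b hb => absurd (π.surjective b) hb
  rw [e1, submatrix_zero, Pi.zero_apply, Pi.zero_apply] at q1
  have pz : ∀ j, j ≠ z → π j ≠ z := fun j hj e => hj (π.injective (e.trans hz.symm))
  have hi : Inv z (N.submatrix π π) := by
    refine ⟨fun j hj => (h.inv.out _ (pz j hj)).imp (fun s l => s _) fun s => ?_,
      fun j hj => (h.inv.inn _ (pz j hj)).imp (fun s l => s _) fun s => ?_, ?_⟩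
    · rwa [submatrix_apply, hz]
    · rwa [submatrix_apply, hz]
    · obtain ⟨j, j1, j2⟩ := h.inv.ex
      obtain ⟨j, rfl⟩ := π.surjective j
      exact ⟨j, fun e => j1 (e ▸ hz), j2⟩
  have e : ∀ i j, (1 - P') i j * X ^ δ j = X ^ δ i * N.submatrix π π i j := fun i j => by
    have := hP i j
    rw [e1, Matrix.sub_apply, mul_sub] at this
    rw [Matrix.sub_apply, sub_mul, this, one_apply]
    split_ifs with h
    · rw [h]; ring
    · simp
  have dv : ∀ i j, i ≠ j → X ^ L ∣ (1 - P') i j := fun i j hij =>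
    sh_dvd (e i j) (((pow_dvd_pow X (Nat.add_le_add_left (hδ j) L)).trans
      (h.off _ _ (π.injective.ne hij)).1).mul_left _)
  obtain ⟨a1, a2, a3, a4, a5⟩ := delay hM hs q1.rel' e
    (fun i j hij => (pow_dvd_pow X hL).trans (dv i j hij)) hi
  refine ⟨q1.trans a1, ⟨a2, a3, fun u l hul => ⟨dv u l hul, ?_⟩, fun i => ?_, fun j hj => ?_⟩,
    by rw [a4, submatrix_apply, hz], fun d hd => a5 d fun u => hd _⟩
  · have b1 := sh_nz h0.le (e u l)
    have b2 := (h.off _ _ (π.injective.ne hul)).2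
    have b3 : ρ ^ δ u ≤ 1 := pow_le_one₀ h0.le h1
    have b4 : ρ ^ ν ≤ ρ ^ δ l := pow_le_pow_of_le_one h0.le h1 (hδ l)
    have b5 := nz_nonneg (ρ := ρ) (N (π u) (π l))
    rw [submatrix_apply] at b1
    refine le_of_mul_le_mul_left ?_ (pow_pos h0 (δ l))
    nlinarith
  · rw [a4, submatrix_apply, ← hd i]
    exact (pow_dvd_pow X (Nat.le_add_right L ν)).trans (h.dia _)
  · rw [a4]; exact h.lt _ (pz j hj)

/-- the rows of `T` have been pushed `n` times -/
structure Pu (ρ η K : ℝ) (z : I) (L n : ℕ) (p : I → ℝ) (T : Finset I) (N N' : Matrix I I ℤ[X])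
    (ξ : I → G) : Prop where
  eq : Eq0 N ξ N' ξ
  hs : Hs N'
  cert : Cert ρ η z N' p
  inv : Inv z N'
  clean : ∀ u l, l ≠ z → u ≠ l → X ^ L ∣ N' u l
  src : ∀ d, Src N d → Src N' d
  dia : ∀ j, X ^ L ∣ N' j j - N j j
  hub : N1 (N' z z - N z z)
  same : ∀ j, j ∉ T → N' j = N j
  deep : ∀ j ∈ T, ∀ l, l ≠ z → j ≠ l → X ^ n ∣ N' j l ∧ nz ρ (N' j l) ≤ (1 - η) ^ n * K
  col : ∀ j, nz ρ (N' j z) ≤ K

theorem pu_rows (hP : PushStmt) {N : Matrix I I ℤ[X]} {ξ : I → G} {z : I} {ρ η : ℝ} {L : ℕ}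
    {p : I → ℝ} (h : St ρ η z L N) (hp : Cert ρ η z N p) (r : act (1 - N) ξ = 0) (h0 : 0 ≤ ρ)
    (e0 : 0 < η) (e1 : η ≤ 1) (T : Finset I) :
    ∃ K, 0 ≤ K ∧ ∀ n, ∃ N', Pu ρ η K z L n p T N N' ξ := by
  induction T using Finset.induction_on with
  | empty =>
    refine ⟨∑ j, nz ρ (N j z), sum_nonneg fun _ _ => nz_nonneg _, fun n => ⟨N,
      Eqv.refl (vp_zero h.hs) r, h.hs, hp, h.inv, h.clean, fun _ h => h, by simp,
      fun _ => by simp, by simp, by simp, fun j => ?_⟩⟩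
    exact single_le_sum (f := fun j => nz ρ (N j z)) (fun _ _ => nz_nonneg _) (mem_univ j)
  | insert a T ha ih =>
    obtain ⟨K, K0, ih⟩ := ih
    obtain ⟨B, hB⟩ : ∃ B, B = ∑ l ∈ (univ.erase z).erase a, nz ρ (N a l) * p l := ⟨_, rfl⟩
    have B0 : 0 ≤ B := hB ▸ sum_nonneg fun l _ => mul_nonneg (nz_nonneg _) (hp.1 l).le
    obtain ⟨W, hW⟩ : ∃ W, W = ∑ l, B / η / p l := ⟨_, rfl⟩
    have W1 : ∀ l, B / η / p l ≤ W := fun l => hW ▸ single_le_sum (f := fun l => B / η / p l)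
      (fun l _ => div_nonneg (div_nonneg B0 e0.le) (hp.1 l).le) (mem_univ l)
    have W0 : 0 ≤ W := (div_nonneg (div_nonneg B0 e0.le) (hp.1 a).le).trans (W1 a)
    have KW : 0 ≤ W * K := mul_nonneg W0 K0
    refine ⟨K + W * K + W, by positivity, fun n => ?_⟩
    obtain ⟨N₁, u⟩ := ih n
    obtain ⟨N₂, c, q1, q2, q3, q4, q5, q6, -, q7, q8, q9, q10, q11, q12⟩ :=
      hP I G N₁ ξ a ((univ.erase z).erase a) n u.hs u.eq.rel' (by simp)
    obtain ⟨q13, q14, q15⟩ := q12 ρ η z p h0 e0 (by simp) u.cert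
    rw [u.same a ha, ← hB] at q14 q15
    have cL : ∀ l, X ^ L ∣ c l := q9 L fun l hl => by
      simp only [mem_erase] at hl
      exact u.clean _ _ hl.2.1 hl.1.symm
    have sL : ∀ l, X ^ L ∣ ∑ v, c v * N₁ v l := fun l => dvd_sum fun v _ => (cL v).mul_right _
    have up : ∀ j l, l = z ∨ l = j → N1 (N₂ j l - N₁ j l) ∧ X ^ L ∣ N₂ j l - N₁ j l := by
      intro j l hl
      by_cases hj : j = a
      · subst hj
        rw [q4, q6 l (by rcases hl with rfl | rfl <;> simp), sub_zero, add_sub_cancel_left]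
        exact ⟨n1_sum fun v _ => n1_mul (q5 v) (u.hs.1 v l), sL l⟩
      · rw [q3 j hj, sub_self]; exact ⟨fun _ => by simp, dvd_zero _⟩
    have sr : ∀ d, Src N₁ d → Src N₂ d := fun d hd j => by
      by_cases hj : j = a
      · rw [hj, q4, q8 d hd]; simp [hd _]
      · rw [q3 j hj]; exact hd j
    have pw : (1 - η) ^ n ≤ 1 := pow_le_one₀ (by linarith) (by linarith)
    have pw0 : 0 ≤ (1 - η) ^ n := pow_nonneg (by linarith) n
    refine ⟨N₂, u.eq.trans q1, q2, q13, ⟨fun j hj => ?_, fun j hj => ?_, ?_⟩, fun j l hl hjl => ?_,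
      fun d hd => sr d (u.src d hd), fun j => ?_, ?_, fun j hj => ?_, fun j hj l hl hjl => ?_,
      fun j => ?_⟩
    · refine (u.inv.out j hj).imp (fun s l => ?_) (n1_ne (u.hs.1 _ _) (up j z (.inl rfl)).1)
      by_cases hj : j = a
      · subst hj; rw [q4, q7 s, s l]; simp
      · rw [q3 j hj]; exact s l
    · refine (u.inv.inn j hj).imp (sr j) fun s =>
        ⟨?_, n1_ne (u.hs.1 _ _) (up j j (.inr rfl)).1 s.2⟩
      by_cases hz : z = a
      · subst hz
        exact n1_ne (n1_mul (u.hs.1 _ _) (n1_pow (u.hs.1 _ _) n)) (q11 j (by simp [hj]))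
          (mul_ne_zero s.1 (pow_ne_zero n s.2))
      · rw [q3 z hz]; exact s.1
    · obtain ⟨j, j1, j2⟩ := u.inv.ex
      exact ⟨j, j1, n1_ne (u.hs.1 _ _) (up j j (.inr rfl)).1 j2⟩
    · by_cases hj : j = a
      · rw [hj, q4]; exact ((u.clean _ _ hl (hj ▸ hjl)).sub (cL l)).add (sL l)
      · rw [q3 j hj]; exact u.clean _ _ hl hjl
    · simpa using (up j j (.inr rfl)).2.add (u.dia j)
    · simpa using n1_add (up z z (.inl rfl)).1 u.hub
    · rw [mem_insert, not_or] at hj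
      rw [q3 j hj.1, u.same j hj.2]
    · by_cases hja : j = a
      · subst hja
        have hl' : l ∈ (univ.erase z).erase j := by simp [hl, hjl.symm]
        refine ⟨q10 l hl', ?_⟩
        have b1 := (single_le_sum (f := fun l => nz ρ (N₂ j l) * p l)
          (fun l _ => mul_nonneg (nz_nonneg _) (hp.1 l).le) hl').trans q15
        have b2 : B ≤ W * p l := by
          have := W1 l
          rw [div_le_iff₀ (hp.1 l), div_le_iff₀ e0] at this
          nlinarith [mul_nonneg W0 (hp.1 l).le]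
        have b3 : nz ρ (N₂ j l) ≤ (1 - η) ^ n * W :=
          le_of_mul_le_mul_right (by nlinarith) (hp.1 l)
        nlinarith
      · obtain ⟨b1, b2⟩ := u.deep j ((mem_insert.1 hj).resolve_left hja) l hl hjl
        rw [q3 j hja]
        exact ⟨b1, by nlinarith⟩
    · by_cases hja : j = a
      · subst hja
        have b1 : ∀ v, nz ρ (c v * N₁ v z) ≤ B / η / p v * K := fun v => by
          refine (nz_mul _ _).trans (mul_le_mul ?_ (u.col v) (nz_nonneg _)
            (div_nonneg (div_nonneg B0 e0.le) (hp.1 v).le))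
          have := single_le_sum (f := fun l => nz ρ (c l) * p l)
            (fun l _ => mul_nonneg (nz_nonneg _) (hp.1 l).le) (mem_univ v)
          rw [le_div_iff₀ (hp.1 v), le_div_iff₀ e0]
          nlinarith
        have b2 := (nz_sum_le ρ univ _).trans (sum_le_sum fun v _ => b1 v)
        rw [← sum_mul, ← hW] at b2
        rw [q4, q6 z (by simp), sub_zero]
        linarith [nz_add (ρ := ρ) (N₁ j z) (∑ v, c v * N₁ v z), u.col j]
      · rw [q3 j hja]; linarith [u.col j]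

theorem ev_small {x K ε : ℝ} (h0 : 0 ≤ x) (h1 : x < 1) (e0 : 0 < ε) (L : ℕ) :
    ∀ᶠ n in Filter.atTop, L ≤ n ∧ x ^ n * K ≤ ε := by
  have := (tendsto_pow_atTop_nhds_zero_of_lt_one h0 h1).mul_const K
  rw [zero_mul] at this
  exact (Filter.eventually_ge_atTop L).and (this.eventually_le_const e0)

theorem end_of (hM : Moves) (hP : PushStmt) : EndStmt := by
  intro I G _ _ _ _ N ξ z ρ η ε L D h r h0 h1 e0 ε0 hz hD
  obtain ⟨p, hp⟩ := h.cert
  have lt : ∀ {N : Matrix I I ℤ[X]}, Cert ρ η z N p → ∀ j, j ≠ z → nz ρ (N j j) ≤ 1 - η := by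
    intro N hp j hj
    exact le_of_mul_le_mul_right ((single_le_sum (f := fun l => nz ρ (N j l) * p l)
      (fun l _ => mul_nonneg (nz_nonneg _) (hp.1 l).le) (by simp [hj])).trans (hp.2 j hj)) (hp.1 j)
  have e1 : η ≤ 1 := by
    obtain ⟨j, hj, -⟩ := h.inv.ex
    linarith [lt hp j hj, nz_nonneg (ρ := ρ) (N j j)]
  obtain ⟨K, K0, hK⟩ := pu_rows hP h hp r h0.le e0 e1 univ
  filter_upwards [ev_small (K := K) h0.le h1 ε0 (L + 1)] with M₁ m1
  filter_upwards [ev_small (K := K) h0.le h1 ε0 (L + 1)] with M₂ m2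
  obtain ⟨n, n1, n2⟩ := (ev_small (K := K) (sub_nonneg.2 e1) (sub_lt_self 1 e0)
    (mul_pos ε0 (pow_pos h0 M₂)) (L + 1 + M₂)).exists
  obtain ⟨N₁, u⟩ := hK n
  obtain ⟨δ, hδ⟩ : ∃ δ : I → ℕ, δ = fun i => if i = z then 0 else if i ∈ D then M₁ else M₂ :=
    ⟨_, rfl⟩
  have key : ∀ i j, i ≠ j → X ^ (L + 1 + δ j) ∣ X ^ δ i * N₁ i j ∧
      ρ ^ δ i * nz ρ (N₁ i j) ≤ ρ ^ δ j * ε := by
    intro i j hij
    by_cases hj : j = z
    · subst hj
      have b1 : L + 1 ≤ δ i ∧ ρ ^ δ i * K ≤ ε := by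
        simp only [hδ, if_neg hij]
        split_ifs
        exacts [m1, m2]
      have b2 : δ j = 0 := by simp [hδ]
      rw [b2, add_zero, pow_zero, one_mul]
      exact ⟨(pow_dvd_pow X b1.1).mul_right _,
        (mul_le_mul_of_nonneg_left (u.col i) (pow_pos h0 _).le).trans b1.2⟩
    by_cases hd : j ∈ D
    · rw [u.src j (hD j hd) i, nz_zero, mul_zero, mul_zero]
      exact ⟨dvd_zero _, by positivity⟩
    · have b2 : δ j = M₂ := by simp [hδ, hj, hd]
      obtain ⟨b3, b4⟩ := u.deep i (mem_univ i) j hj hij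
      rw [b2]
      refine ⟨((pow_dvd_pow X n1).trans b3).mul_left _, ?_⟩
      have b5 : ρ ^ δ i ≤ 1 := pow_le_one₀ h0.le h1.le
      nlinarith [nz_nonneg (ρ := ρ) (N₁ i j)]
  have ex : ∀ i j, ∃ q : ℤ[X], q * X ^ δ j = X ^ δ i * N₁ i j := fun i j => by
    by_cases hij : i = j
    · exact ⟨N₁ i j, by rw [hij, mul_comm]⟩
    · obtain ⟨q, hq⟩ := (pow_dvd_pow X (Nat.le_add_left _ _)).trans (key i j hij).1
      exact ⟨q, by rw [hq, mul_comm]⟩
  choose N₂ e using ex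
  have dv : ∀ i j, i ≠ j → X ^ (L + 1) ∣ N₂ i j := fun i j hij => sh_dvd (e i j) (key i j hij).1
  obtain ⟨a1, a2, a3, a4, a5⟩ := delay hM (N' := Matrix.of N₂) u.hs u.eq.rel' e
    (fun i j hij => (pow_dvd_pow X (Nat.le_add_left 1 L)).trans (dv i j hij)) u.inv
  refine ⟨Matrix.of N₂, by simpa only [hδ, Eq0] using u.eq.trans a1, ⟨a2, a3, fun i j hij =>
    ⟨(pow_dvd_pow X (Nat.le_add_right L 1)).trans (dv i j hij), ?_⟩, fun i => ?_, fun j hj => ?_⟩,
    fun d hd => a5 d (u.src d (hD d hd)), by rw [a4]; exact u.hub⟩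
  · exact le_of_mul_le_mul_left ((sh_nz h0.le (e i j)).trans_le (key i j hij).2) (pow_pos h0 _)
  · rw [a4, sub_sub_sub_cancel_left, ← dvd_neg, neg_sub]; exact u.dia i
  · rw [a4]; exact lt u.cert j hj

end Pool.Agent.MP_993212_an.H2
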